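import Pool.Agent.H742.LC.Main2
import Pool.Agent.H742.LC.P_VD
import Pool.Agent.H742.LC.P_CJ
import Pool.Agent.H742.LC.P_FIN

/-!
# MP_ede9a8_lc: normal subgroups whose identity component is closed reduce to countable ones
-/

set_option autoImplicit false

namespace Pool.Agent.Results.MP_ede9a8_lc.ClosedIdentityComponent

/-- Let `N` be a normal subgroup of a Polish group `G` with a locally compact Polish group topology
`τ` for which the inclusion is continuous (`N` is locally compactable), and suppose that the
identity component of `(N, τ)` is a closed subset of `G`; for instance, `(N, τ)` is totally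
disconnected. Then there are a Polish group `H`, a countable normal subgroup `M` of `H` and a
continuous map `h : G → H` with `x⁻¹ y ∈ N ↔ (h x)⁻¹ (h y) ∈ M` for all `x, y : G`. -/
theorem result (G : Type) [Group G] [TopologicalSpace G] [IsTopologicalGroup G] [PolishSpace G]
    (N : Subgroup G) (hN : N.Normal) (τ : TopologicalSpace N) (h1 : @IsTopologicalGroup N τ _)
    (h2 : @PolishSpace N τ) (h3 : @LocallyCompactSpace N τ)
    (h4 : @Continuous N G τ _ Subtype.val)
    (h5 : IsClosed ((Subtype.val : N → G) '' @connectedComponent N τ 1)) :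
    ∃ (H : Type) (_ : Group H) (_ : TopologicalSpace H) (M : Subgroup H) (h : G → H),
      IsTopologicalGroup H ∧ PolishSpace H ∧ M.Normal ∧ Countable M ∧ Continuous h ∧
      ∀ x y : G, x⁻¹ * y ∈ N ↔ (h x)⁻¹ * h y ∈ M :=
  Pool.Agent.H742.LC.t_FIN Pool.Agent.H742.LC.t_VD Pool.Agent.H742.LC.t_CJ
    Pool.Agent.H742.LC.main2 G N hN τ h1 h2 h3 h4 h5

end Pool.Agent.Results.MP_ede9a8_lc.ClosedIdentityComponent
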